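import Pool.Agent.H62.NF.Pub

/-!
# Either all problems in a domain have strong solutions, or breakdown occurs at will

Let `Ω` be a bounded open set. If a single admissible problem in `Ω`, with some viscosity, fails to
have a strong solution on some interval, then for EVERY viscosity `ν`, EVERY strong solution `v` with
this viscosity on `[0,S]`, all `s < S` and all `t > s` the force can be changed after the time `s`
such that the solution follows `v` up to the time `s` and breaks down exactly at the time `t`.
So the question Q1 for `Ω`, for all viscosities, times and data, is equivalent to the question for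
the initial velocity zero, one viscosity and one arbitrarily short time.
-/

open MeasureTheory Set Filter Topology H772R2.NS.Pub Pool.Agent.H62.NF
open scoped InnerProductSpace ENNReal

/-- Let `Ω ⊆ ℝ³` be bounded and open (no regularity of the boundary is assumed). Then one of the
following is true.
(a) For all `ν > 0` and `T > 0` all the admissible problems in `Ω` with viscosity `ν` have strong
solutions on `[0,T]`.
(b) For all `ν > 0`, all strong solutions `v` on `[0,S]` with viscosity `ν` and force `Φ`, all
`0 ≤ s < S` and all `t > s` there is a force `F`, in `H¹(0,T; L²)` for all `T` and equal to `Φ` on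
`[0,s]`, such that the strong solution `u` with the initial velocity `v(0)`, viscosity `ν` and force `F`
exists on `[0,τ]` for all `τ < t`, is equal to `v` on `[0,s]`, and does not exist on `[0,t]`. -/
theorem Pool.Agent.Results.MP_fd8964_an.BreakdownAtWill.result :
    ∀ {Ω : Set R3}, IsOpen Ω → Bornology.IsBounded Ω →
      (∀ ν T : ℝ, 0 < ν → 0 < T → AllStrong Ω ν T) ∨
      (∀ (ν S : ℝ) (Φ Φ' : ℝ → L2 Ω Mat) (v v' : ℝ → L2 Ω R3) (Z Z' : ℝ → L2 Ω Mat), 0 < ν →
        IsH1 S Φ Φ' → IsStrong Ω ν S Φ v v' Z Z' → ∀ s t : ℝ, 0 ≤ s → s < S → s < t →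
        ∃ F F' : ℝ → L2 Ω Mat, (∀ T, IsH1 T F F') ∧ (∀ r ∈ Icc 0 s, F r = Φ r) ∧
          (∀ τ, 0 < τ → τ < t → ∃ u u' G G', IsStrong Ω ν τ F u u' G G' ∧ u 0 = v 0 ∧
            ∀ r ∈ Icc 0 s, r ≤ τ → u r = v r) ∧
          ¬ HasStrong Ω ν t (v 0) F) := by
  intro Ω hΩ hb
  by_cases h : ∀ ν T : ℝ, 0 < ν → 0 < T → AllStrong Ω ν T
  · exact Or.inl h
  · push Not at h
    refine Or.inr fun ν S Φ Φ' v v' Z Z' hν hΦ A s t hs hsS hst => ?_
    obtain ⟨F, F', hF, h5, h6, hno⟩ := pub_will (Ω := Ω) hΩ hb h hν (D := Φ) (D' := Φ')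
      ⟨hΦ.memLp, hΦ.prim⟩ A hs hsS hst
    exact ⟨F, F', fun T => ⟨(hF T).memLp, (hF T).prim⟩, h5, h6, hno⟩
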